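import Pool.Agent.H86.AP.Final

/-!
MP_2c7cbe_co, Q1: there is no all-purpose tile.  The two wallpaper groups `p4m` and `p6m` never
occur both as symmetry groups of monohedral tilings with the same polygonal prototile.
-/

namespace Pool.Agent.Results.MP_2c7cbe_co.NoAllPurpose

open Pool.Agent.H86.AP

theorem result : IsWallpaper p4m ∧ IsWallpaper p6m ∧
    ∀ P : Set ℂ, IsPolygon P →
      (∀ T : Set (Set ℂ), IsMonohedral P T → IsEmpty (symGroup T ≃* p4m)) ∨
      (∀ T : Set (Set ℂ), IsMonohedral P T → IsEmpty (symGroup T ≃* p6m)) := by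
  refine ⟨p4m_isWallpaper, p6m_isWallpaper, fun P hP => ?_⟩
  by_contra hcon
  rw [not_or] at hcon
  obtain ⟨h4, h6⟩ := hcon
  simp only [not_forall, not_isEmpty_iff] at h4 h6
  obtain ⟨T4, hT4, e4⟩ := h4
  obtain ⟨T6, hT6, e6⟩ := h6
  exact not_both hP hT4 hT6 e4 e6

end Pool.Agent.Results.MP_2c7cbe_co.NoAllPurpose
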